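import Pool.Agent.helper56.NZ.Spec

/-!
# Project nz: module STL (the stop lemma for large discs)
-/

set_option autoImplicit false

open Complex Metric Set Filter Topology MeasureTheory
open Pool.Agent.helper98.ILF Pool.Agent.helper16.Multibrot
open HY (UD T S hd UN RM VV SG Orb fz)

noncomputable section

namespace NZ

theorem STL (hMOB : HY.MOB_stmt) (hHDI : HY.HDI_stmt) (hKO3 : V3.KO3_stmt) : STL_stmt := by
  intro η hη0 hη1
  obtain ⟨C, hC1, hC⟩ := hKO3 (η / 2) (by linarith) (by linarith)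
  have hC0 : 0 < C := by linarith
  refine ⟨1 / (32 * C), by positivity, ?_, ?_⟩
  · rw [div_le_div_iff₀ (by positivity) (by norm_num)]
    linarith
  · intro H hH hl x hx
    have h0 : (0 : ℂ) ∈ UD := by
      change (0 : ℂ) ∈ ball (0 : ℂ) 1
      simp
    have ha : H 0 ∈ UD := hH.map h0
    obtain ⟨hm1, hm2, -, hm4, -, hm6, -⟩ := hMOB (H 0) ha
    have hdG : DifferentiableOn ℂ (fun z => T (H 0) (H z)) (ball 0 1) := hm4.comp hH.dif hH.map
    have hiG : InjOn (fun z => T (H 0) (H z)) (ball 0 1) := hm6.comp hH.inj hH.map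
    have hdH : DifferentiableAt ℂ H 0 := (hH.dif 0 h0).differentiableAt (isOpen_ball.mem_nhds h0)
    have h1 : hd (fun z => T (H 0) (H z)) 0 = hd H 0 := (hHDI.1 (H 0) H 0 ha hdH ha).1
    have h2 : ‖deriv (fun z => T (H 0) (H z)) 0‖ = hd H 0 := by
      rw [← h1]
      unfold hd
      change _ = _ / (1 - ‖T (H 0) (H 0)‖ ^ 2)
      rw [hm2]
      simp
    have hxb : x ∈ ball (0 : ℂ) ((1 - η / 2) * 1) := by
      rw [mem_ball_zero_iff]
      linarith
    have h3 := ((hC (fun z => T (H 0) (H z)) 0 1 one_pos hdG hiG).2 x hxb).2.2.1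
    change ‖T (H 0) (H x) - T (H 0) (H 0)‖ ≤ C * ‖x - 0‖ * ‖deriv (fun z => T (H 0) (H z)) 0‖ at h3
    rw [hm2, sub_zero, sub_zero, h2] at h3
    have h4 : ‖x‖ ≤ 1 := by linarith
    have h5 : 0 ≤ hd H 0 := by rw [← h2]; exact norm_nonneg _
    calc ‖T (H 0) (H x)‖ ≤ C * ‖x‖ * hd H 0 := h3
      _ ≤ C * 1 * (1 / (32 * C)) := by gcongr
      _ = 1 / 32 := by field_simp

end NZ
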